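import Pool.Agent.H31.Leo.Main

/-!
# Exceptional units of cubic extensions at the primes two and three

A unit `ε` of a number field is exceptional (Nagell) if `1 - ε` is a unit too. The cubic fields which
contain exceptional units are the members of two families with one parameter `a ∈ ℤ`,
`x³ - a x² + (a + 1) x - 1` (discriminant `(a² - 3 a - 1)² - 32`) and `x³ - a x² + (a - 3) x + 1` (the
simplest cubic fields).

The `p`-adic regulator of `ε, 1 - ε` is a `p`-adic analytic function of `a ∈ ℤ_p`. For `p = 2` and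
`p = 3` all its zeros in `ℤ_p` are explained by multiplicative relations: for the first family they
are `a = -1, 0, 1, 2, 3, 4` (the complex cubic fields with the discriminants `-23` and `-31`) and, for
`p = 2`, the two roots of `a² - 3 a + 4` (the field of the seventh roots of unity); for the second
family there are none. In fact

`ε⁵ = (1 - ε)(1 - (a + 1) ε (1 - ε + ε²))`, `ε³ = (1 - ε)(1 - a ε)`,
`ε³ = (1 - ε)² (1 - (a - 1) ε / (1 - ε))`, `ε⁷ = (1 - ε)⁷ (1 + (a² - 3 a + 4) g)`,

and the relations with `a, ε` replaced by `3 - a, 1 - ε`, and near every zero the quotient of the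
regulator by the distance of the zero is a number which is not zero modulo `16` or `27`; this is a
calculation for the finitely many residue classes of `a` modulo `64` and `81`.
-/

set_option autoImplicit false

namespace Pool.Agent.Results.MP_5f2860_nt.ExceptionalUnits

open NumberField Filter Topology

/-- Leopoldt's conjecture for the number field `K` and the prime `p`, in the form of the frozen
statement: units of `K` congruent to `1` at all primes above `p` which are multiplicatively
independent over `ℤ` stay independent over `ℤ_p` in the product of the completions above `p`. -/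
def Leopoldt (K : Type) [Field K] [NumberField K] (p : ℕ) [Fact p.Prime] : Prop :=
  ∀ (n : ℕ) (ε : Fin n → (𝓞 K)ˣ),
    (∀ i, ((ε i : 𝓞 K) - 1) ∈ (Ideal.span {((p : ℕ) : 𝓞 K)}).radical) →
    (∀ c : Fin n → ℤ, ∏ i, ε i ^ c i = 1 → c = 0) →
    ∀ (a : Fin n → PadicInt p) (m : ℕ → Fin n → ℤ),
      (∀ i, Tendsto (fun k => ((m k i : ℤ) : PadicInt p)) atTop (𝓝 (a i))) →
      (∀ N : ℕ, ∀ᶠ k in atTop,
        ((p : ℕ) : 𝓞 K) ^ N ∣ (((∏ i, ε i ^ m k i : (𝓞 K)ˣ) : 𝓞 K) - 1)) →
      a = 0

/-- `ε` is a unit of `K` and `1 - ε = η` is a unit, too. -/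
def IsExceptional {K : Type} [Field K] [NumberField K] (ε η : (𝓞 K)ˣ) : Prop :=
  (ε : 𝓞 K) + η = 1

/-- The units `ε, η` are multiplicatively independent. -/
def Independent {K : Type} [Field K] [NumberField K] (ε η : (𝓞 K)ˣ) : Prop :=
  ∀ m n : ℤ, ε ^ m * η ^ n = 1 → m = 0 ∧ n = 0

/-- The units `ε, η` are independent over `ℤ_p` in the product of the completions of `K` above `p`:
if integers `m_k → a`, `n_k → b` in `ℤ_p` and `ε ^ m_k * η ^ n_k → 1` `p`-adically, then
`a = b = 0`. -/
def PadicIndependent {K : Type} [Field K] [NumberField K] (p : ℕ) [Fact p.Prime]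
    (ε η : (𝓞 K)ˣ) : Prop :=
  ∀ (a b : ℤ_[p]) (m n : ℕ → ℤ),
    Tendsto (fun k => ((m k : ℤ) : ℤ_[p])) atTop (𝓝 a) →
    Tendsto (fun k => ((n k : ℤ) : ℤ_[p])) atTop (𝓝 b) →
    (∀ N : ℕ, ∀ᶠ k in atTop,
      ((p : ℕ) : 𝓞 K) ^ N ∣ ((ε ^ m k * η ^ n k : (𝓞 K)ˣ) : 𝓞 K) - 1) →
    a = 0 ∧ b = 0

/-- The relative norms of the units `ε, η` are `1` or `-1`. -/
def NormsOne (k : Type) {K : Type} [Field k] [NumberField k] [Field K] [NumberField K] [Algebra k K]
    (ε η : (𝓞 K)ˣ) : Prop :=
  (Algebra.norm k ((ε : 𝓞 K) : K) = 1 ∨ Algebra.norm k ((ε : 𝓞 K) : K) = -1) ∧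
    (Algebra.norm k ((η : 𝓞 K) : K) = 1 ∨ Algebra.norm k ((η : 𝓞 K) : K) = -1)

theorem leopoldt_iff (K : Type) [Field K] [NumberField K] (p : ℕ) [Fact p.Prime] :
    Leopoldt K p ↔ Pool.Agent.H31.Leo.Leopoldt K p := Iff.rfl

theorem norm_aux {k K : Type} [Field k] [NumberField k] [Field K] [NumberField K] [Algebra k K]
    (x : 𝓞 K) (h : Algebra.norm k (x : K) = 1 ∨ Algebra.norm k (x : K) = -1) :
    RingOfIntegers.norm k x = 1 ∨ RingOfIntegers.norm k x = -1 := by
  rcases h with h | h
  · left
    apply RingOfIntegers.ext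
    rw [RingOfIntegers.coe_norm, h]
    rfl
  · right
    apply RingOfIntegers.ext
    rw [RingOfIntegers.coe_norm, h]
    exact ((map_neg _ _).trans (by rw [map_one])).symm

theorem rank_zero {k : Type} [Field k] [NumberField k] (h2 : Module.finrank ℚ k = 2)
    (hc : IsTotallyComplex k) : Units.rank k = 0 := by
  have h1 := InfinitePlace.card_add_two_mul_card_eq_rank k
  have h3 := InfinitePlace.card_eq_nrRealPlaces_add_nrComplexPlaces k
  have h4 : InfinitePlace.nrRealPlaces k = 0 := nrRealPlaces_eq_zero_iff.2 hc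
  have h5 : Units.rank k = Fintype.card (InfinitePlace k) - 1 := rfl
  omega

/-- **Exceptional units and Leopoldt's conjecture at `2` and `3`.** Let `p` be `2` or `3`.

1. Leopoldt's conjecture holds for `p` and every cubic field with an exceptional unit.

2. Let `K / k` be a cubic extension of number fields, `k` a subfield of `ℚ_p`, and `ε` an exceptional
unit of `K` such that the relative norms of `ε` and `1 - ε` are `1` or `-1`. If `ε` and `1 - ε` are
multiplicatively independent then they are independent over `ℤ_p` in the product of the completions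
of `K` above `p`.

3. Leopoldt's conjecture holds for `p` and every cubic extension `K` of an imaginary quadratic field
`k ⊆ ℚ_p` which contains an exceptional unit `ε` such that `ε` and `1 - ε` are multiplicatively
independent. -/
theorem result (p : ℕ) [Fact p.Prime] (hp : p = 2 ∨ p = 3) :
    (∀ (K : Type) [Field K] [NumberField K], Module.finrank ℚ K = 3 →
      ∀ ε η : (𝓞 K)ˣ, IsExceptional ε η → Leopoldt K p) ∧
    (∀ (k K : Type) [Field k] [NumberField k] [Field K] [NumberField K] [Algebra k K],
      Nonempty (k →+* ℚ_[p]) → Module.finrank k K = 3 →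
      ∀ ε η : (𝓞 K)ˣ, IsExceptional ε η → NormsOne k ε η → Independent ε η →
        PadicIndependent p ε η) ∧
    (∀ (k K : Type) [Field k] [NumberField k] [Field K] [NumberField K] [Algebra k K],
      Module.finrank ℚ k = 2 → IsTotallyComplex k → Nonempty (k →+* ℚ_[p]) →
      Module.finrank k K = 3 → ∀ ε η : (𝓞 K)ˣ, IsExceptional ε η → Independent ε η →
        Leopoldt K p) := by
  refine ⟨?_, ?_, ?_⟩
  · intro K _ _ hdeg ε η h
    exact Pool.Agent.H31.Leo.cubic p hp hdeg ε η h
  · intro k K _ _ _ _ _ hf hdeg ε η h hN hi a b m n hm hn hrel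
    obtain ⟨φ⟩ := Pool.Agent.H31.Leo.exists_phi hf.some
    have h1 := Pool.Agent.H31.Leo.indep_general hp φ hdeg ε η h hi (norm_aux _ hN.1)
      (norm_aux _ hN.2) m n hrel
    exact ⟨Pool.Agent.H31.Leo.eq_zero_of_small hm h1.1,
      Pool.Agent.H31.Leo.eq_zero_of_small hn h1.2⟩
  · intro k K _ _ _ _ _ h2 hc hf hdeg ε η h hi
    obtain ⟨φ⟩ := Pool.Agent.H31.Leo.exists_phi hf.some
    exact Pool.Agent.H31.Leo.sextic_mi p hp (rank_zero h2 hc) h2 φ hdeg ε η h hi

end Pool.Agent.Results.MP_5f2860_nt.ExceptionalUnits
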