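import Pool.Agent.H8.LD.Main
import Pool.Agent.H46.OP.RelC

/-!
# Leopoldt's conjecture and number fields all of whose `p`-adic completions but one contain a given field

Let `K` be a number field, `T` a finite extension of `K`, `X` a bound and `S` a finite set of primes of
`K`, for instance the primes above `p`. There are finitely many special extensions `F_j` of `K`, integers
`a_j` and an integer `N ≠ 0` such that `N δ_p(K) = ∑ a_j δ_p(F_j)` for the Leopoldt defects at all prime
numbers `p`. Here `F` is special if it has a cyclic extension `F'` which contains `T`, and all primes `w` of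
`F` but at most ONE have a norm greater than `X` and split completely in `F'` (so that the completion
`F_w` contains `T`) or, if they do not lie over `S`, are at least unramified in `F'`. Hence Leopoldt's
conjecture at `p` holds for all number fields if it holds for those all of whose completions at the
primes above `p` but one have a residue field with more than `X` elements and contain `T`.
-/

set_option autoImplicit false

namespace Pool.Agent.Results.MP_5f2860_nt.OneBadPlace

open NumberField IsDedekindDomain Pool.Agent.H8.LeoRel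
open scoped Pointwise

section fields

variable {F : Type} [Field F] [NumberField F] (F' : Type) [Field F'] [NumberField F'] [Algebra F F']

/-- The inertia groups of the prime `w` of `F` in the Galois extension `F'` are trivial. -/
def Unramified (w : HeightOneSpectrum (𝓞 F)) : Prop :=
  ∀ W : HeightOneSpectrum (𝓞 F'), W.asIdeal.under (𝓞 F) = w.asIdeal →
    ∀ σ : Gal(F'/F), (∀ x : 𝓞 F', σ • x - x ∈ W.asIdeal) → σ = 1

/-- The prime `w` of `F` splits completely in the Galois extension `F'`: its decomposition groups are
trivial. -/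
def SplitsCompletely (w : HeightOneSpectrum (𝓞 F)) : Prop :=
  ∀ W : HeightOneSpectrum (𝓞 F'), W.asIdeal.under (𝓞 F) = w.asIdeal →
    ∀ σ : Gal(F'/F), σ • W.asIdeal = W.asIdeal → σ = 1

/-- The prime `w` of `F ⊇ K` lies over the set `S` of primes of `K`. -/
def LiesOver {K : Type} [Field K] [NumberField K] [Algebra K F] (S : Set (HeightOneSpectrum (𝓞 K)))
    (w : HeightOneSpectrum (𝓞 F)) : Prop :=
  ∃ v ∈ S, w.asIdeal.under (𝓞 K) = v.asIdeal

/-- The prime `w` of `F` is exceptional: its norm is at most `X`, or it does not split completely in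
`F'` and lies over `S` or ramifies in `F'`. -/
def Exceptional {K : Type} [Field K] [NumberField K] [Algebra K F] (S : Set (HeightOneSpectrum (𝓞 K)))
    (X : ℕ) (w : HeightOneSpectrum (𝓞 F)) : Prop :=
  Ideal.absNorm w.asIdeal ≤ X ∨ ((¬ Unramified F' w ∨ LiesOver S w) ∧ ¬ SplitsCompletely F' w)

end fields

/-- Special number fields `F ⊇ K`, for a set `S` of primes of `K`, a bound `X` and an extension `T` of
`K`: there is a cyclic extension `F'` of `F` which contains `T`, such that at most one prime of `F` is
exceptional. -/
def Special {K : Type} [Field K] [NumberField K] (S : Set (HeightOneSpectrum (𝓞 K))) (X : ℕ)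
    (T : Type) [Field T] [Algebra K T] (F : Type) [Field F] [NumberField F] [Algebra K F] : Prop :=
  ∃ (F' : Type) (_ : Field F') (_ : NumberField F') (_ : Algebra F F'),
    IsGalois F F' ∧ IsCyclic Gal(F'/F) ∧
    (∃ j : T →+* F', ∀ x : K, j (algebraMap K T x) = algebraMap F F' (algebraMap K F x)) ∧
    ∀ w w' : HeightOneSpectrum (𝓞 F),
      Exceptional F' S X w → Exceptional F' S X w' → w = w'

/-- All primes of `F` above `p` but at most one have norm greater than `X` and split completely in the
extension `F'`, so that the completion contains `F'`. -/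
def AllButOneSplit {F : Type} [Field F] [NumberField F] (F' : Type) [Field F'] [NumberField F']
    [Algebra F F'] (p X : ℕ) : Prop :=
  ∀ w w' : HeightOneSpectrum (𝓞 F), ((p : ℕ) : 𝓞 F) ∈ w.asIdeal → ((p : ℕ) : 𝓞 F) ∈ w'.asIdeal →
    (Ideal.absNorm w.asIdeal ≤ X ∨ ¬ SplitsCompletely F' w) →
    (Ideal.absNorm w'.asIdeal ≤ X ∨ ¬ SplitsCompletely F' w') → w = w'

/-- The primes above `p`. -/
def primesOver (K : Type) [Field K] [NumberField K] (p : ℕ) : Set (HeightOneSpectrum (𝓞 K)) :=
  {v | ((p : ℕ) : 𝓞 K) ∈ v.asIdeal}

theorem finite_primesOver (K : Type) [Field K] [NumberField K] (p : ℕ) (hp : p.Prime) :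
    (primesOver K p).Finite := by
  have h1 : Ideal.span {((p : ℕ) : 𝓞 K)} ≠ 0 := by
    rw [Ne, Ideal.zero_eq_bot, Ideal.span_singleton_eq_bot]
    exact_mod_cast hp.ne_zero
  refine (Ideal.finite_factors h1).subset fun v hv => ?_
  change v.asIdeal ∣ _
  rw [Ideal.dvd_span_singleton]
  exact hv

/-- **Leopoldt's conjecture: fields with at most one exceptional prime suffice.**

(1) The defect exists, is unique, and is `0` if and only if Leopoldt's conjecture holds.

(2) For every number field `K`, every finite set `S` of primes of `K`, every bound `X` and every finite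
extension `T` of `K` there are finitely many special extensions `F j` of `K`, integers `a j` and
`N ≠ 0`, such that the sum of the characters of the permutation representations of the `F j` with the
coefficients `a j` is `N` times the trivial character, and `N` times the defect of `K` is `∑ a j * (the
defect of F j)` for all primes `p`.

(3) For every `K`, `p`, `X` and every finite extension `T` of `K`: Leopoldt's conjecture holds for `p` and
all finite extensions of `K` if it holds for `p` and those `F` which have a cyclic extension `F'` that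
contains `T` and in which all primes above `p` but at most one split completely (so that all but one
of the completions of `F` at the primes above `p` contain `T`), these primes having norm `> X`. -/
theorem result :
    (∀ (K : Type) [Field K] [NumberField K] (p : ℕ) [Fact p.Prime],
      (∃! δ : ℕ, IsDefect p K δ) ∧ (Leopoldt K p ↔ IsDefect p K 0)) ∧
    (∀ (K : Type) [Field K] [NumberField K] (S : Set (HeightOneSpectrum (𝓞 K))) (_ : S.Finite)
      (X : ℕ) (T : Type) [Field T] [NumberField T] [Algebra K T],
      ∃ (ι : Type) (_ : Fintype ι) (F : ι → Type) (_ : ∀ j, Field (F j))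
        (_ : ∀ j, NumberField (F j)) (_ : ∀ j, Algebra K (F j)) (a : ι → ℤ) (N : ℕ), N ≠ 0 ∧
        (∀ j, Special S X T (F j)) ∧
        (∀ σ : Gal(AlgebraicClosure K/K), ∑ j, a j * (fixedEmbeddings K (F j) σ : ℤ) = N) ∧
        ∀ (p : ℕ) [Fact p.Prime] (δ : ℕ) (d : ι → ℕ), IsDefect p K δ →
          (∀ j, IsDefect p (F j) (d j)) → (N : ℤ) * (δ : ℤ) = ∑ j, a j * (d j : ℤ)) ∧
    ∀ (K : Type) [Field K] [NumberField K] (p : ℕ) [Fact p.Prime] (X : ℕ) (T : Type) [Field T]
      [NumberField T] [Algebra K T],
      (∀ (F : Type) [Field F] [NumberField F] [Algebra K F],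
        (∃ (F' : Type) (_ : Field F') (_ : NumberField F') (_ : Algebra F F'),
          IsGalois F F' ∧ IsCyclic Gal(F'/F) ∧
          (∃ j : T →+* F', ∀ x : K, j (algebraMap K T x) = algebraMap F F' (algebraMap K F x)) ∧
          AllButOneSplit (F := F) F' p X) → Leopoldt F p) →
      ∀ (F : Type) [Field F] [NumberField F] [Algebra K F], Leopoldt F p := by
  refine ⟨fun K _ _ p _ => ⟨?_, leopoldt_iff⟩, fun K _ _ S hS X T _ _ _ => ?_,
    fun K _ _ p hp X T _ _ _ h F _ _ _ => ?_⟩
  · obtain ⟨L, hL⟩ := Pool.Agent.W289.SL.exists_iwasawaLog p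
    exact ⟨_, (isDefect_iff hL).2 rfl, fun δ hδ => (isDefect_iff hL).1 hδ⟩
  · obtain ⟨ι, _, Y, a, N, hN, h1, h2⟩ :=
      Pool.Agent.H46.OP.one_bad_place_relation_cyclic K S hS X T
    have h2' : ∀ σ : Gal(AlgebraicClosure K/K),
        ∑ j, a j * (fixedEmbeddings K (Y j).F σ : ℤ) = (N : ℤ) := fun σ => by
      rw [← h2 σ]
      exact Finset.sum_congr rfl fun j _ => by rw [fixedEmbeddings_eq]
    refine ⟨ι, inferInstance, fun j => (Y j).F, inferInstance, inferInstance, inferInstance, a, N,
      hN, fun j => h1 j, h2', ?_⟩
    intro p _ δ d hδ hd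
    exact defect_of_relation h2' hδ hd
  · obtain ⟨L, hL⟩ := Pool.Agent.W289.SL.exists_iwasawaLog p
    obtain ⟨ι, _, Y, a, N, hN, h1, h2⟩ := Pool.Agent.H46.OP.one_bad_place_relation_cyclic_over K
      (primesOver K p) (finite_primesOver K p hp.out) X T F
    have h2' : ∀ σ : Gal(AlgebraicClosure F/F),
        ∑ j, a j * (fixedEmbeddings F (Y j).F σ : ℤ) = (N : ℤ) := fun σ => by
      rw [← h2 σ]
      exact Finset.sum_congr rfl fun j _ => by rw [fixedEmbeddings_eq]
    have h3 : ∀ j, IsDefect p (Y j).F 0 := by
      intro j
      let _ : Algebra K (Y j).F := ((algebraMap F (Y j).F).comp (algebraMap K F)).toAlgebra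
      have ht : IsScalarTower K F (Y j).F := IsScalarTower.of_algebraMap_eq fun x => rfl
      obtain ⟨F', _, _, _, hG, hH, hj, hone⟩ := h1 j
      refine leopoldt_iff.1 (h (Y j).F ⟨F', inferInstance, inferInstance, inferInstance, hG, hH, hj,
        ?_⟩)
      have key : ∀ w : HeightOneSpectrum (𝓞 (Y j).F), ((p : ℕ) : 𝓞 (Y j).F) ∈ w.asIdeal →
          LiesOver (primesOver K p) w := by
        intro w hw
        obtain ⟨v, hv⟩ := Pool.Agent.H46.SP.exists_under (K := K) w
        refine ⟨v, ?_, hv⟩
        change ((p : ℕ) : 𝓞 K) ∈ v.asIdeal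
        rw [← hv]
        change algebraMap (𝓞 K) (𝓞 (Y j).F) ((p : ℕ) : 𝓞 K) ∈ w.asIdeal
        rw [map_natCast]
        exact hw
      intro w w' hw hw' he he'
      exact hone w w' (he.imp_right fun h => ⟨Or.inr (key w hw), h⟩)
        (he'.imp_right fun h => ⟨Or.inr (key w' hw'), h⟩)
    obtain ⟨δ, hδ⟩ : ∃ δ, IsDefect p F δ := ⟨_, (isDefect_iff hL).2 rfl⟩
    have h4 := defect_of_relation h2' hδ h3
    have h5 : δ = 0 := by
      have h6 : (N : ℤ) * (δ : ℤ) = 0 := by rw [h4]; simp
      rcases mul_eq_zero.1 h6 with h7 | h7
      · exact absurd (by exact_mod_cast h7) hN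
      · exact_mod_cast h7
    rw [leopoldt_iff, ← h5]
    exact hδ

end Pool.Agent.Results.MP_5f2860_nt.OneBadPlace
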