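import Pool.Agent.H8.LD.Main

/-!
# Leopoldt's conjecture and number fields with at most one small prime

The defect of Leopoldt's conjecture is additive in relations between the permutation characters of
extension fields. Every number field `K` has finitely many extensions `F_j` without automorphisms
and with at most one prime ideal of norm `≤ b`, with integers `a_j` such that
`δ_p(K) = ∑ a_j δ_p(F_j)` for all primes `p`. Hence Leopoldt's conjecture holds at `p` for all number
fields if it holds for those without automorphisms and with at most one prime ideal of norm `≤ b`.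
-/

set_option autoImplicit false

namespace Pool.Agent.Results.MP_5f2860_nt.OneSmallPrimeDefects

open NumberField Pool.Agent.H8.LeoRel

/-- (1) the defect exists, is unique, and is `0` if and only if Leopoldt's conjecture holds;
(2) for every number field `K` and every bound `b` there are finitely many extensions `F j` of `K`
without automorphisms and with at most one prime ideal of norm `≤ b`, and integers `a j`, such that
the sum of the characters of the permutation representations of the `F j` with the coefficients
`a j` is the trivial character, and the defect of `K` is `∑ a j * (the defect of F j)` for all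
primes `p`; (3) for every `p` and `b`, Leopoldt's conjecture holds for `p` and all finite extensions
of `K` if it holds for `p` and those without automorphisms and with at most one prime ideal of norm
`≤ b`. -/
theorem result :
    (∀ (K : Type) [Field K] [NumberField K] (p : ℕ) [Fact p.Prime],
      (∃! δ : ℕ, IsDefect p K δ) ∧ (Leopoldt K p ↔ IsDefect p K 0)) ∧
    (∀ (K : Type) [Field K] [NumberField K] (b : ℕ),
      ∃ (ι : Type) (_ : Fintype ι) (F : ι → Type) (_ : ∀ j, Field (F j))
        (_ : ∀ j, NumberField (F j)) (_ : ∀ j, Algebra K (F j)) (a : ι → ℤ),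
        (∀ j, NoAutomorphisms (F j) ∧ AtMostOneSmallPrime b (F j)) ∧
        (∀ σ : Gal(AlgebraicClosure K/K), ∑ j, a j * (fixedEmbeddings K (F j) σ : ℤ) = 1) ∧
        ∀ (p : ℕ) [Fact p.Prime] (δ : ℕ) (d : ι → ℕ), IsDefect p K δ →
          (∀ j, IsDefect p (F j) (d j)) → (δ : ℤ) = ∑ j, a j * (d j : ℤ)) ∧
    ∀ (K : Type) [Field K] [NumberField K] (p : ℕ) [Fact p.Prime] (b : ℕ),
      (∀ (F : Type) [Field F] [NumberField F] [Algebra K F], NoAutomorphisms F →
        AtMostOneSmallPrime b F → Leopoldt F p) →
      ∀ (F : Type) [Field F] [NumberField F] [Algebra K F], Leopoldt F p := by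
  refine ⟨fun K _ _ p _ => ⟨?_, leopoldt_iff⟩, fun K _ _ b => ?_, fun K _ _ p _ b h F _ _ _ => ?_⟩
  · obtain ⟨L, hL⟩ := Pool.Agent.W289.SL.exists_iwasawaLog p
    exact ⟨_, (isDefect_iff hL).2 rfl, fun δ hδ => (isDefect_iff hL).1 hδ⟩
  · obtain ⟨ι, _, F, _, _, _, a, h1, h2⟩ := exists_rel K b
    refine ⟨ι, inferInstance, F, inferInstance, inferInstance, inferInstance, a, h1, h2, ?_⟩
    intro p _ δ d hδ hd
    have h3 := defect_of_relation h2 hδ hd
    rwa [one_mul] at h3
  · obtain ⟨L, hL⟩ := Pool.Agent.W289.SL.exists_iwasawaLog p
    obtain ⟨ι, _, E, _, _, _, a, h1, h2⟩ := exists_rel F b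
    have h3 : ∀ j, IsDefect p (E j) 0 := by
      intro j
      let _ : Algebra K (E j) := ((algebraMap F (E j)).comp (algebraMap K F)).toAlgebra
      exact leopoldt_iff.1 (h (E j) (h1 j).1 (h1 j).2)
    obtain ⟨δ, hδ⟩ : ∃ δ, IsDefect p F δ := ⟨_, (isDefect_iff hL).2 rfl⟩
    have h4 := defect_of_relation h2 hδ h3
    have h5 : δ = 0 := by
      rw [one_mul] at h4
      have h6 : (δ : ℤ) = 0 := by rw [h4]; simp
      exact_mod_cast h6
    rw [leopoldt_iff, ← h5]
    exact hδ

end Pool.Agent.Results.MP_5f2860_nt.OneSmallPrimeDefects
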