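import Pool.Agent.H31.Frob.Explicit

/-!
# Leopoldt's conjecture and the Frobenius on the roots of `∏ (T - a_i) = ±1`

Let `p` be an odd prime. The totally real fields `K = ℚ(θ)` of degree `n` with
`(θ - a_1) ⋯ (θ - a_n) = ±1`, `a_i ∈ ℤ` distinct, contain the `n` units `θ - a_i`. If all the `a_i` are
congruent modulo a high power of `p` then their `p`-adic logarithms are easy. Here the differences
are not small: the `a_i` lie in one residue class modulo `p`, or in two classes, one of which contains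
exactly `p` of them.

*Proof.* Let `p` of the nodes `a_i` be divisible by `p`, with sum divisible by `p²`, and the other `d`
nodes congruent to the unit `m` modulo `p` (and with average `m` modulo `p²`). The `p`-adic conjugates
`x` of `θ` satisfy `x^p (x - m)^d ≡ v` modulo `p²`, `v = ±1`. The Frobenius permutes them modulo `p`:
`x^p ≡ x*`. The congruence modulo `p²` gives

`x^p / x* ≡ 1 + (p / x*) (q + ∑_{0 < k < p} (1/p) (p choose k) m^(p-k) (x - m)^k)`, `q = (m^p - m)/p`,

and, as `(x - m)^d ≡ v / x*` and `(x - m)^p ≡ x* - m`,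

`(x - m)^k ≡ v^r x*^(-r) (x* - m)^(-e)` for `k = d r - e p`, `0 < r < p`, `0 ≤ e < d`.

So `p log x - log x*` is, modulo `p²`, a combination of the functions `x*^(-r-1) (x* - m)^(-e)` in which
`x*^(-p)` occurs with a coefficient that is a unit. A relation `∑ c_i log(x - a_i) = 0` becomes, after
expansion of `log(1 - a_i / x)` and `log(1 - (a_j - m)/(x - m))`, a relation between the `p + d - 1`
functions `x^(-k)` (`1 ≤ k ≤ p`), `(x - m)^(-k)` (`1 ≤ k < d`), which are linearly independent modulo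
`p` on the `p + d` conjugates. It follows by descent that all the power sums `∑ c_i a_i^k` over the
first class and `∑ c_j (a_j - m)^k` over the second class vanish.
-/

set_option autoImplicit false

namespace Pool.Agent.Results.MP_5f2860_nt.TwoResidueClasses

open NumberField Filter Topology Polynomial

/-- Leopoldt's conjecture for the number field `K` and the prime `p`, in the form of the frozen
statement: units of `K` congruent to `1` at all primes above `p` which are multiplicatively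
independent over `ℤ` stay independent over `ℤ_p` in the product of the completions above `p`. -/
def Leopoldt (K : Type) [Field K] [NumberField K] (p : ℕ) [Fact p.Prime] : Prop :=
  ∀ (n : ℕ) (ε : Fin n → (𝓞 K)ˣ),
    (∀ i, ((ε i : 𝓞 K) - 1) ∈ (Ideal.span {((p : ℕ) : 𝓞 K)}).radical) →
    (∀ c : Fin n → ℤ, ∏ i, ε i ^ c i = 1 → c = 0) →
    ∀ (a : Fin n → PadicInt p) (m : ℕ → Fin n → ℤ),
      (∀ i, Tendsto (fun k => ((m k i : ℤ) : PadicInt p)) atTop (𝓝 (a i))) →
      (∀ N : ℕ, ∀ᶠ k in atTop,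
        ((p : ℕ) : 𝓞 K) ^ N ∣ (((∏ i, ε i ^ m k i : (𝓞 K)ˣ) : 𝓞 K) - 1)) →
      a = 0

/-- `n ≥ 1` and `v_p(k) ≤ k - n` for all `k ≥ n`. In particular `n` is prime to `p`; all `n` prime to
`p` with `n < p ^ 2 - 1` are admissible. -/
def Admissible (p n : ℕ) : Prop := 1 ≤ n ∧ ∀ k, n ≤ k → padicValNat p k + n ≤ k

/-- The integers `a_1, …, a_n` lie in one or two residue classes modulo `p`: either they are all
congruent modulo `p`, and `n` is admissible; or `p` of them, the `a_i` with `i ∈ S`, are congruent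
modulo `p` and their sum is congruent to `p a_j`, `j ∈ S`, modulo `p ^ 2`, the other `n - p` are
congruent to each other modulo `p` but not to the first ones, and `n - p` is admissible. -/
def TwoClasses (p : ℕ) {n : ℕ} (a : Fin n → ℤ) : Prop :=
  (Admissible p n ∧ ∀ i j, (p : ℤ) ∣ a i - a j) ∨
  ∃ S : Finset (Fin n), S.card = p ∧ Admissible p (n - p) ∧
    (∀ i ∈ S, ∀ j ∈ S, (p : ℤ) ∣ a i - a j) ∧ (∀ i ∉ S, ∀ j ∉ S, (p : ℤ) ∣ a i - a j) ∧
    (∀ i ∈ S, ∀ j ∉ S, ¬ (p : ℤ) ∣ a i - a j) ∧ ∀ j ∈ S, (p : ℤ) ^ 2 ∣ ∑ i ∈ S, (a i - a j)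

/-- All the roots of the monic polynomial `H ∈ ℤ_p[T]` are congruent to `m` modulo `p`: the
coefficient of `T ^ i` in `H(T + m)` is divisible by `p ^ (deg H - i)`. -/
def Congruent (p : ℕ) [Fact p.Prime] (H : ℤ_[p][X]) (m : ℤ_[p]) : Prop :=
  ∀ i < H.natDegree, (p : ℤ_[p]) ^ (H.natDegree - i) ∣ (H.comp (X + C m)).coeff i

/-- The roots of the monic polynomial `G ∈ ℤ_p[T]` lie in one or two residue classes modulo `p`:
either they are all congruent to one `a ∈ ℤ_p`, and the degree is admissible; or `G = H H'`, where the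
`p` roots of `H` are congruent to `a` modulo `p` and their sum is congruent to `p a` modulo `p ^ 2`,
the roots of `H'` are congruent to `a'` modulo `p`, `a` is not congruent to `a'`, and the degree of
`H'` is admissible. -/
def Good (p : ℕ) [Fact p.Prime] (G : ℤ_[p][X]) : Prop :=
  (Admissible p G.natDegree ∧ ∃ a : ℤ_[p], Congruent p G a) ∨
  ∃ (H H' : ℤ_[p][X]) (a a' : ℤ_[p]), G = H * H' ∧ H.Monic ∧ H'.Monic ∧ H.natDegree = p ∧
    Admissible p H'.natDegree ∧ ¬ (p : ℤ_[p]) ∣ a - a' ∧ Congruent p H a ∧ Congruent p H' a' ∧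
    (p : ℤ_[p]) ^ 2 ∣ (H.comp (X + C a)).coeff (p - 1)

/-- The units `u_j` are independent over `ℤ_p` in the product of the completions of `K` above `p`, up
to the relation `∏ u_j = v`: if integers `m_{n,j} → w_j` in `ℤ_p` and `∏ u_j ^ m_{n,j} → 1` `p`-adically,
then all the `w_j` are equal. -/
def OneRelation {K : Type} [Field K] [NumberField K] (p : ℕ) [Fact p.Prime] {g : ℕ}
    (u : Fin g → (𝓞 K)ˣ) : Prop :=
  ∀ (M : ℕ → Fin g → ℤ) (w : Fin g → ℤ_[p]),
    (∀ j, Tendsto (fun n => ((M n j : ℤ) : ℤ_[p])) atTop (𝓝 (w j))) →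
    (∀ N : ℕ, ∀ᶠ n in atTop,
      ((p : ℕ) : 𝓞 K) ^ N ∣ ((∏ j, u j ^ M n j : (𝓞 K)ˣ) : 𝓞 K) - 1) → ∀ i j, w i = w j

/-- **Leopoldt's conjecture for one or two residue classes.** Let `p` be an odd prime.

1. Let `K = ℚ(θ)` have degree `n`, `(θ - a_1) ⋯ (θ - a_n) = ±1` with distinct integers `a_i` which lie
in one or two residue classes modulo `p` in the sense of `TwoClasses`. Then `K` is totally real and
Leopoldt's conjecture holds for `K` and `p`.

2. Let `k` be a number field with finitely many units (`ℚ` or imaginary quadratic),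
`φ : 𝓞 k → ℤ_p` a homomorphism, `K = k(θ)` of degree `n` over `k` and `(θ - a_1) ⋯ (θ - a_n) = v` with
distinct `a_i ∈ 𝓞 k` and a unit `v` of `k`, and let the `φ(a_i)` lie in one or two classes in the sense
of `Good`. Then the unit group of `K` has rank `n - 1` and Leopoldt's conjecture holds for `K` and
`p`.

3. Let `k` be any number field, `φ : 𝓞 k → ℤ_p` a homomorphism, `K = k(θ)`, and let
`h_0, …, h_g ∈ 𝓞 k [T]` be monic of positive degrees, pairwise coprime over `k`, of total degree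
`[K : k]`, such that `h_0(θ) ⋯ h_g(θ) = v` is a root of unity of `k` and the roots of `φ(h_0 ⋯ h_g)` lie
in one or two classes in the sense of `Good`. Then the relation `∏ h_j(θ) = v` is the only relation
over `ℤ_p` between the units `u_j = h_j(θ)`; the unit group of `K` has rank at least `g`; and if the
rank is `g` then Leopoldt's conjecture holds for `K` and `p`. -/
theorem result (p : ℕ) [Fact p.Prime] (hp : p ≠ 2) :
    (∀ (K : Type) [Field K] [NumberField K] (n : ℕ) (a : Fin n → ℤ) (θ : 𝓞 K),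
      Module.finrank ℚ K = n → IntermediateField.adjoin ℚ {(θ : K)} = ⊤ → Function.Injective a →
      TwoClasses p a → (∏ i, (θ - (a i : 𝓞 K)) = 1 ∨ ∏ i, (θ - (a i : 𝓞 K)) = -1) →
      IsTotallyReal K ∧ Leopoldt K p) ∧
    (∀ (k K : Type) [Field k] [NumberField k] [Field K] [NumberField K] [Algebra k K]
      (φ : 𝓞 k →+* ℤ_[p]) (n : ℕ) (a : Fin n → 𝓞 k) (θ : 𝓞 K) (v : (𝓞 k)ˣ),
      Units.rank k = 0 → Module.finrank k K = n → IntermediateField.adjoin k {(θ : K)} = ⊤ →
      Function.Injective a → ∏ i, (θ - algebraMap (𝓞 k) (𝓞 K) (a i)) = algebraMap (𝓞 k) (𝓞 K) v →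
      Good p (∏ i, (X - C (φ (a i)))) → Units.rank K + 1 = n ∧ Leopoldt K p) ∧
    (∀ (k K : Type) [Field k] [NumberField k] [Field K] [NumberField K] [Algebra k K]
      (φ : 𝓞 k →+* ℤ_[p]) (g : ℕ) (h : Fin (g + 1) → (𝓞 k)[X]) (θ : 𝓞 K) (v : 𝓞 k) (s : ℕ)
      (u : Fin (g + 1) → (𝓞 K)ˣ),
      IntermediateField.adjoin k {(θ : K)} = ⊤ → (∀ j, (h j).Monic) → (∀ j, 0 < (h j).natDegree) →
      (Pairwise fun i j => IsCoprime ((h i).map (algebraMap (𝓞 k) k))
        ((h j).map (algebraMap (𝓞 k) k))) →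
      ∑ j, (h j).natDegree = Module.finrank k K → (∀ j, (u j : 𝓞 K) = aeval θ (h j)) →
      ∏ j, (u j : 𝓞 K) = algebraMap (𝓞 k) (𝓞 K) v → 0 < s → v ^ s = 1 →
      Good p ((∏ j, h j).map φ) →
      OneRelation p u ∧ g ≤ Units.rank K ∧ (Units.rank K = g → Leopoldt K p)) := by
  refine ⟨?_, ?_, ?_⟩
  · intro K _ _ n a θ hn hgen ha hcl hθ
    exact Pool.Agent.H31.Frob.explicit hp hn a ha hcl θ hgen hθ
  · intro k K _ _ _ _ _ φ n a θ v hk hn hgen ha hθ hgood
    exact Pool.Agent.H31.Frob.split hp φ hk hgen hn a ha v hθ hgood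
  · intro k K _ _ _ _ _ φ g h θ v s u hgen hm hd hcop hdeg hu hθ hs hv hgood
    obtain ⟨h1, h2, h3⟩ := Pool.Agent.H31.Frob.main hp φ hgen h hm hd hcop hdeg v hs hv u hu hθ hgood
    exact ⟨h3, h1, fun h4 => h2 h4.le⟩

end Pool.Agent.Results.MP_5f2860_nt.TwoResidueClasses
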